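import Mathlib

/-!
# Skew forcing irredundance parameters on forests

For every forest the four parameters `z₋ir`, `Z₋`, upper `Z₋` and `Z₋IR` are all equal to the
nullity of the adjacency matrix.
-/

namespace Pool.Agent.Results.MP_aa1485_co.ForestNullity

open Finset

variable {V : Type} [Fintype V] [DecidableEq V]

/-- One application of the skew forcing rule: a vertex `u` whose only white neighbour is `w`
turns `w` blue. -/
def Forces (G : SimpleGraph V) (B B' : Finset V) : Prop :=
  ∃ u w, G.Adj u w ∧ w ∉ B ∧ (∀ x, G.Adj u x → x ∉ B → x = w) ∧ B' = insert w B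

/-- `S` is a skew forcing set: repeated application of the rule turns every vertex blue. -/
def IsSkewForcing (G : SimpleGraph V) (S : Finset V) : Prop :=
  Relation.ReflTransGen (Forces G) S Finset.univ

/-- The skew forcing number. -/
noncomputable def skewZ (G : SimpleGraph V) : ℕ :=
  sInf {k | ∃ S : Finset V, IsSkewForcing G S ∧ S.card = k}

/-- The upper skew forcing number: maximum size of an inclusion-minimal skew forcing set. -/
noncomputable def upperSkewZ (G : SimpleGraph V) : ℕ :=
  sSup {k | ∃ S : Finset V, Minimal (IsSkewForcing G) S ∧ S.card = k}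

/-- Skew forts: nonempty sets `F` with `|N(v) ∩ F| ≠ 1` for every vertex `v`. -/
def IsSkewFort (G : SimpleGraph V) (F : Finset V) : Prop :=
  F.Nonempty ∧ ∀ v, {w | w ∈ F ∧ G.Adj v w}.ncard ≠ 1

/-- `Z₋Ir`-sets: every `u ∈ S` has a skew fort `F` with `F ∩ S = {u}`. -/
def IsZIr (G : SimpleGraph V) (S : Finset V) : Prop :=
  ∀ u ∈ S, ∃ F : Finset V, IsSkewFort G F ∧ F ∩ S = {u}

/-- The lower skew forcing irredundance number. -/
noncomputable def zir (G : SimpleGraph V) : ℕ :=
  sInf {k | ∃ S : Finset V, Maximal (IsZIr G) S ∧ S.card = k}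

/-- The upper skew forcing irredundance number. -/
noncomputable def upperZIR (G : SimpleGraph V) : ℕ :=
  sSup {k | ∃ S : Finset V, Maximal (IsZIr G) S ∧ S.card = k}

/-! ### The null space -/

open Classical in
/-- The null space of the adjacency matrix. -/
noncomputable def nullSpace (G : SimpleGraph V) : Submodule ℝ (V → ℝ) :=
  LinearMap.ker (Matrix.mulVecLin (G.adjMatrix ℝ))

open Classical in
lemma mem_null (G : SimpleGraph V) (x : V → ℝ) :
    x ∈ nullSpace G ↔ ∀ v, ∑ w ∈ Finset.univ.filter (fun w => G.Adj v w), x w = 0 := by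
  rw [nullSpace, LinearMap.mem_ker]
  constructor
  · intro h v
    have := congrFun h v
    rw [Matrix.mulVecLin_apply, SimpleGraph.adjMatrix_mulVec_apply, Pi.zero_apply] at this
    refine Eq.trans (Finset.sum_congr ?_ (fun _ _ => rfl)) this
    ext w; simp
  · intro h
    funext v
    rw [Matrix.mulVecLin_apply, SimpleGraph.adjMatrix_mulVec_apply]
    have := h v
    rw [Pi.zero_apply, ← this]
    apply Finset.sum_congr _ (fun _ _ => rfl)
    ext w; simp

open Classical in
lemma fort_card (G : SimpleGraph V) (F : Finset V) (v : V) :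
    {w | w ∈ F ∧ G.Adj v w}.ncard = (F.filter (fun w => G.Adj v w)).card := by
  rw [← Set.ncard_coe_finset]
  congr 1
  ext w; simp

open Classical in
/-- The support of a nonzero null vector is a skew fort. -/
lemma fort_of_null (G : SimpleGraph V) (x : V → ℝ) (hx : x ∈ nullSpace G) (h0 : x ≠ 0) :
    IsSkewFort G (Finset.univ.filter (fun v => x v ≠ 0)) := by
  constructor
  · obtain ⟨v, hv⟩ := Function.ne_iff.mp h0
    exact ⟨v, by simpa using hv⟩
  · intro v h1
    rw [fort_card, Finset.card_eq_one] at h1
    obtain ⟨w, hw⟩ := h1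
    have hmem : w ∈ (Finset.univ.filter (fun v => x v ≠ 0)).filter (fun w => G.Adj v w) := by
      rw [hw]; exact Finset.mem_singleton_self w
    simp only [Finset.mem_filter, Finset.mem_univ, true_and] at hmem
    have hs := (mem_null G x).mp hx v
    rw [Finset.sum_eq_single w] at hs
    · exact hmem.1 hs
    · intro y hy hyw
      by_contra hne
      apply hyw
      have : y ∈ (Finset.univ.filter (fun v => x v ≠ 0)).filter (fun w => G.Adj v w) := by
        simp only [Finset.mem_filter, Finset.mem_univ, true_and] at hy ⊢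
        exact ⟨hne, hy⟩
      rw [hw] at this
      exact Finset.mem_singleton.mp this
    · intro hnot
      exact absurd (by simpa using hmem.2) hnot

open Classical in
/-- The non-backtracking walk argument. -/
lemma no_dual (G : SimpleGraph V) (hG : G.IsAcyclic) (F : Finset V) (hF : IsSkewFort G F)
    (u : V) (hu : u ∈ F) (y : V → ℝ)
    (h1 : ∑ v ∈ Finset.univ.filter (fun w => G.Adj u w), y v = 1)
    (h0 : ∀ w ∈ F, w ≠ u → ∑ v ∈ Finset.univ.filter (fun v => G.Adj w v), y v = 0) : False := by
  have key : ∀ n : ℕ, ∃ w ∈ F, ∃ p : G.Walk w u, p.IsPath ∧ p.length = 2 * n ∧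
      (0 < n → y p.snd ≠ 0) := by
    intro n
    induction n with
    | zero => exact ⟨u, hu, SimpleGraph.Walk.nil, SimpleGraph.Walk.IsPath.nil, rfl, by omega⟩
    | succ n ih =>
      obtain ⟨w, hwF, p, hp, hlen, hsnd⟩ := ih
      have hv : ∃ v, G.Adj w v ∧ y v ≠ 0 ∧ v ∉ p.support := by
        rcases Nat.eq_zero_or_pos n with hn | hn
        · subst hn
          have hnil : p.Nil := by
            rw [SimpleGraph.Walk.nil_iff_length_eq]; omega
          have hwu : w = u := hnil.eq
          subst hwu
          obtain ⟨v, hv, hyv⟩ := Finset.exists_ne_zero_of_sum_ne_zero (by rw [h1]; norm_num)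
          have hadj : G.Adj w v := by simpa using hv
          refine ⟨v, hadj, hyv, ?_⟩
          rw [SimpleGraph.Walk.nil_iff_support_eq.mp hnil, List.mem_singleton]
          exact hadj.ne'
        · have hnn : ¬ p.Nil := by
            rw [SimpleGraph.Walk.nil_iff_length_eq]; omega
          have hwu : w ≠ u := by
            intro h
            subst h
            have := SimpleGraph.Walk.isPath_iff_eq_nil.mp hp
            rw [this] at hlen
            simp at hlen
            omega
          have hs := h0 w hwF hwu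
          have hsadj : G.Adj w p.snd := p.adj_snd hnn
          by_contra hcon
          push Not at hcon
          have hsingle : ∑ v ∈ Finset.univ.filter (fun v => G.Adj w v), y v = y p.snd := by
            apply Finset.sum_eq_single
            · intro b hb hbs
              by_contra hyb
              have hadj : G.Adj w b := by simpa using hb
              exact hbs (hG.eq_snd_of_adj_start hp hadj (hcon b hadj hyb))
            · intro hnot
              exact absurd (by simpa using hsadj) hnot
          rw [hsingle] at hs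
          exact hsnd hn hs
      obtain ⟨v, hadj, hyv, hvs⟩ := hv
      have hp1 : (SimpleGraph.Walk.cons hadj.symm p).IsPath := by
        rw [SimpleGraph.Walk.cons_isPath_iff]; exact ⟨hp, hvs⟩
      have hw' : ∃ w', w' ∈ F ∧ G.Adj v w' ∧ w' ≠ w := by
        by_contra hcon
        push Not at hcon
        apply hF.2 v
        rw [Set.ncard_eq_one]
        refine ⟨w, ?_⟩
        ext z
        constructor
        · rintro ⟨hz1, hz2⟩
          exact hcon z hz1 hz2
        · intro hz
          rw [Set.mem_singleton_iff] at hz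
          subst hz
          exact ⟨hwF, hadj.symm⟩
      obtain ⟨w', hw'F, hadj', hne⟩ := hw'
      have hns : w' ∉ (SimpleGraph.Walk.cons hadj.symm p).support := by
        intro hin
        apply hne
        have := hG.eq_snd_of_adj_start hp1 hadj' hin
        simpa using this
      refine ⟨w', hw'F, SimpleGraph.Walk.cons hadj'.symm (SimpleGraph.Walk.cons hadj.symm p), ?_, ?_, ?_⟩
      · rw [SimpleGraph.Walk.cons_isPath_iff]; exact ⟨hp1, hns⟩
      · rw [SimpleGraph.Walk.length_cons, SimpleGraph.Walk.length_cons, hlen]; ring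
      · intro _
        simpa using hyv
  obtain ⟨w, _, p, hp, hlen, _⟩ := key (Fintype.card V)
  have := hp.length_lt
  omega

open Classical in
/-- Key lemma: every vertex of a skew fort `F` of a forest is in the support of a null vector
supported in `F`. -/
lemma key (G : SimpleGraph V) (hG : G.IsAcyclic) (F : Finset V) (hF : IsSkewFort G F)
    (u : V) (hu : u ∈ F) : ∃ x ∈ nullSpace G, (∀ v, v ∉ F → x v = 0) ∧ x u ≠ 0 := by
  by_contra hcon
  push Not at hcon
  let P : (V → ℝ) →ₗ[ℝ] (V → ℝ) :=
    { toFun := fun x v => if v ∈ F then x v else 0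
      map_add' := by intro x y; funext v; by_cases h : v ∈ F <;> simp [h]
      map_smul' := by intro r x; funext v; by_cases h : v ∈ F <;> simp [h] }
  let B : (V → ℝ) →ₗ[ℝ] (V → ℝ) := (Matrix.mulVecLin (G.adjMatrix ℝ)).comp P
  let e : Module.Dual ℝ (V → ℝ) := LinearMap.proj u
  have he : e ∈ (LinearMap.ker B).dualAnnihilator := by
    rw [Submodule.mem_dualAnnihilator]
    intro x hx
    have hPx : P x ∈ nullSpace G := hx
    have h1 := hcon (P x) hPx (by intro v hv; simp [P, hv])
    simpa [P, hu, e] using h1
  rw [← LinearMap.range_dualMap_eq_dualAnnihilator_ker, LinearMap.mem_range] at he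
  obtain ⟨g, hg⟩ := he
  have hcol : ∀ w ∈ F, ∑ v ∈ Finset.univ.filter (fun v => G.Adj w v), g (Pi.single v 1)
      = if w = u then 1 else 0 := by
    intro w hw
    have h1 : e (Pi.single w 1) = g (B (Pi.single w 1)) := by
      rw [← hg]; rfl
    have h2 : B (Pi.single w 1) = ∑ v ∈ Finset.univ.filter (fun v => G.Adj w v),
        (Pi.single v (1 : ℝ) : V → ℝ) := by
      have hP : P (Pi.single w 1) = Pi.single w 1 := by
        funext v
        by_cases hv : v ∈ F
        · simp [P, hv]
        · have : v ≠ w := fun h => hv (h ▸ hw)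
          simp [P, hv, this]
      show Matrix.mulVecLin (G.adjMatrix ℝ) (P (Pi.single w 1)) = _
      rw [hP, Matrix.mulVecLin_apply, Matrix.mulVec_single_one]
      funext z
      rw [Finset.sum_apply]
      simp only [Pi.single_apply, Finset.sum_ite_eq, Finset.mem_filter, Finset.mem_univ, true_and]
      rw [Matrix.col_apply, SimpleGraph.adjMatrix_apply]
      simp [G.adj_comm z w]
    rw [h2, map_sum] at h1
    rw [← h1]
    simp only [e, LinearMap.proj_apply, Pi.single_apply]
    by_cases h : w = u
    · simp [h]
    · simp [h, Ne.symm h]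
  apply no_dual G hG F hF u hu (fun v => g (Pi.single v 1))
  · have := hcol u hu
    simpa using this
  · intro w hw hwu
    have := hcol w hw
    simpa [hwu] using this

/-! ### Forcing sets and forts -/

open Classical in
lemma forcing_of_meets (G : SimpleGraph V) : ∀ (k : ℕ) (S : Finset V), (Sᶜ).card = k →
    (∀ F, IsSkewFort G F → (F ∩ S).Nonempty) → IsSkewForcing G S := by
  intro k
  induction k with
  | zero =>
    intro S hS _
    rw [Finset.card_eq_zero, Finset.compl_eq_empty_iff] at hS
    subst hS
    exact Relation.ReflTransGen.refl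
  | succ k ih =>
    intro S hS hF
    have hne : (Sᶜ).Nonempty := by rw [← Finset.card_pos]; omega
    have hnf : ¬ IsSkewFort G Sᶜ := by
      intro h
      obtain ⟨x, hx⟩ := hF _ h
      rw [Finset.mem_inter, Finset.mem_compl] at hx
      exact hx.1 hx.2
    have hex : ∃ v, {w | w ∈ Sᶜ ∧ G.Adj v w}.ncard = 1 := by
      by_contra hcon
      push Not at hcon
      exact hnf ⟨hne, hcon⟩
    obtain ⟨u, hu⟩ := hex
    obtain ⟨w, hw⟩ := Set.ncard_eq_one.mp hu
    have hwm : w ∈ {w | w ∈ Sᶜ ∧ G.Adj u w} := by rw [hw]; rfl
    obtain ⟨hw1, hw2⟩ := hwm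
    rw [Finset.mem_compl] at hw1
    have hstep : Forces G S (insert w S) := by
      refine ⟨u, w, hw2, hw1, ?_, rfl⟩
      intro x hx hxS
      have : x ∈ {w | w ∈ Sᶜ ∧ G.Adj u w} := ⟨Finset.mem_compl.mpr hxS, hx⟩
      rw [hw] at this
      exact this
    have hrec : IsSkewForcing G (insert w S) := by
      apply ih
      · rw [Finset.card_compl, Finset.card_insert_of_notMem hw1]
        rw [Finset.card_compl] at hS
        omega
      · intro F hFF
        obtain ⟨x, hx⟩ := hF F hFF
        rw [Finset.mem_inter] at hx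
        exact ⟨x, Finset.mem_inter.mpr ⟨hx.1, Finset.mem_insert_of_mem hx.2⟩⟩
    exact Relation.ReflTransGen.head hstep hrec

lemma meets_of_forcing (G : SimpleGraph V) (S : Finset V) (hS : IsSkewForcing G S)
    (F : Finset V) (hF : IsSkewFort G F) : (F ∩ S).Nonempty := by
  by_contra hne
  rw [Finset.not_nonempty_iff_eq_empty] at hne
  have hinv : ∀ B, Relation.ReflTransGen (Forces G) S B → F ∩ B = ∅ := by
    intro B hB
    induction hB with
    | refl => exact hne
    | @tail B' C' _ hstep ih =>
      obtain ⟨u, w, hadj, hw, hall, rfl⟩ := hstep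
      by_contra hne2
      obtain ⟨x, hx⟩ := Finset.nonempty_iff_ne_empty.mpr hne2
      rw [Finset.mem_inter, Finset.mem_insert] at hx
      have hnotB : ∀ y ∈ F, y ∉ B' := by
        intro y hy hyB
        have : y ∈ F ∩ B' := Finset.mem_inter.mpr ⟨hy, hyB⟩
        rw [ih] at this
        exact absurd this (Finset.notMem_empty _)
      have hwF : w ∈ F := by
        rcases hx.2 with rfl | h
        · exact hx.1
        · exact absurd h (hnotB x hx.1)
      apply hF.2 u
      rw [Set.ncard_eq_one]
      refine ⟨w, ?_⟩
      ext z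
      constructor
      · rintro ⟨hz1, hz2⟩
        exact hall z hz2 (hnotB z hz1)
      · intro hz
        rw [Set.mem_singleton_iff] at hz
        subst hz
        exact ⟨hwF, hadj⟩
  have := hinv _ hS
  rw [Finset.inter_univ] at this
  exact Finset.nonempty_iff_ne_empty.mp hF.1 this

/-! ### Linear algebra characterisations -/

/-- The restriction map is injective on the null space. -/
def Spans (G : SimpleGraph V) (S : Finset V) : Prop :=
  ∀ x ∈ nullSpace G, (∀ v ∈ S, x v = 0) → x = 0

/-- The coordinate functionals of `S` are independent on the null space. -/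
def Indep (G : SimpleGraph V) (S : Finset V) : Prop :=
  ∀ u ∈ S, ∃ x ∈ nullSpace G, x u ≠ 0 ∧ ∀ v ∈ S, v ≠ u → x v = 0

lemma forcing_iff (G : SimpleGraph V) (hG : G.IsAcyclic) (S : Finset V) :
    IsSkewForcing G S ↔ Spans G S := by
  classical
  constructor
  · intro h x hx hS
    by_contra h0
    obtain ⟨v, hv⟩ := meets_of_forcing G S h _ (fort_of_null G x hx h0)
    rw [Finset.mem_inter, Finset.mem_filter] at hv
    exact hv.1.2 (hS v hv.2)
  · intro h
    apply forcing_of_meets G _ S rfl
    intro F hF
    by_contra hne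
    rw [Finset.not_nonempty_iff_eq_empty] at hne
    obtain ⟨u, hu⟩ := hF.1
    obtain ⟨x, hx, hxF, hxu⟩ := key G hG F hF u hu
    apply hxu
    have : x = 0 := by
      apply h x hx
      intro v hv
      apply hxF
      intro hvF
      have : v ∈ F ∩ S := Finset.mem_inter.mpr ⟨hvF, hv⟩
      rw [hne] at this
      exact absurd this (Finset.notMem_empty _)
    rw [this]; rfl

lemma ir_iff (G : SimpleGraph V) (hG : G.IsAcyclic) (S : Finset V) : IsZIr G S ↔ Indep G S := by
  classical
  constructor
  · intro h u hu
    obtain ⟨F, hF, hFS⟩ := h u hu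
    have huF : u ∈ F := by
      have : u ∈ F ∩ S := by rw [hFS]; exact Finset.mem_singleton_self u
      exact (Finset.mem_inter.mp this).1
    obtain ⟨x, hx, hxF, hxu⟩ := key G hG F hF u huF
    refine ⟨x, hx, hxu, ?_⟩
    intro v hv hvu
    apply hxF
    intro hvF
    have : v ∈ F ∩ S := Finset.mem_inter.mpr ⟨hvF, hv⟩
    rw [hFS, Finset.mem_singleton] at this
    exact hvu this
  · intro h u hu
    obtain ⟨x, hx, hxu, hxS⟩ := h u hu
    refine ⟨_, fort_of_null G x hx (by intro h0; apply hxu; rw [h0]; rfl), ?_⟩
    ext v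
    rw [Finset.mem_inter, Finset.mem_filter, Finset.mem_singleton]
    constructor
    · rintro ⟨⟨_, h1⟩, h2⟩
      by_contra hvu
      exact h1 (hxS v h2 hvu)
    · rintro rfl
      exact ⟨⟨Finset.mem_univ _, hxu⟩, hu⟩

/-- A set that is spanning and independent has size the nullity. -/
lemma card_eq (G : SimpleGraph V) (S : Finset V) (h1 : Spans G S) (h2 : Indep G S) :
    S.card = Module.finrank ℝ (nullSpace G) := by
  classical
  let ρ : nullSpace G →ₗ[ℝ] (S → ℝ) :=
    { toFun := fun x v => x.1 v.1
      map_add' := by intro x y; rfl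
      map_smul' := by intro r x; rfl }
  have hinj : Function.Injective ρ := by
    rw [← LinearMap.ker_eq_bot, LinearMap.ker_eq_bot']
    intro x hx
    apply Subtype.ext
    apply h1 x.1 x.2
    intro v hv
    exact congrFun hx ⟨v, hv⟩
  have hsurj : Function.Surjective ρ := by
    choose! x hx hxu hxv using h2
    intro y
    let z : nullSpace G := ∑ v : S, (y v / x v.1 v.1) • (⟨x v.1, hx v.1 v.2⟩ : nullSpace G)
    refine ⟨z, ?_⟩
    funext w
    have : ρ z w = ∑ v : S, (y v / x v.1 v.1) * x v.1 w.1 := by
      simp only [z, map_sum, map_smul, Finset.sum_apply, Pi.smul_apply, smul_eq_mul]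
      rfl
    rw [this, Finset.sum_eq_single w]
    · rw [div_mul_cancel₀ _ (hxu w.1 w.2)]
    · intro v _ hvw
      rw [hxv v.1 v.2 w.1 w.2 (fun h => hvw (Subtype.ext h.symm)), mul_zero]
    · intro h; exact absurd (Finset.mem_univ _) h
  have := (LinearEquiv.ofBijective ρ ⟨hinj, hsurj⟩).finrank_eq
  rw [this, Module.finrank_fintype_fun_eq_card, Fintype.card_coe]

lemma max_indep_spans (G : SimpleGraph V) (S : Finset V) (h : Maximal (Indep G) S) :
    Spans G S := by
  classical
  intro x hx hS
  by_contra h0
  obtain ⟨v, hv⟩ := Function.ne_iff.mp h0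
  have hvS : v ∉ S := fun hin => hv (hS v hin)
  have hind : Indep G (insert v S) := by
    intro u hu
    rcases Finset.mem_insert.mp hu with rfl | huS
    · refine ⟨x, hx, hv, ?_⟩
      intro w hw hwu
      exact hS w ((Finset.mem_insert.mp hw).resolve_left hwu)
    · obtain ⟨z, hz, hzu, hzS⟩ := h.prop u huS
      refine ⟨z - (z v / x v) • x, (nullSpace G).sub_mem hz ((nullSpace G).smul_mem _ hx), ?_, ?_⟩
      · rw [Pi.sub_apply, Pi.smul_apply, hS u huS, smul_zero, sub_zero]
        exact hzu
      · intro w hw hwu
        rw [Pi.sub_apply, Pi.smul_apply, smul_eq_mul]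
        rcases Finset.mem_insert.mp hw with rfl | hwS
        · have hv' : x w ≠ 0 := hv
          field_simp
          ring
        · rw [hzS w hwS hwu, hS w hwS, mul_zero, sub_zero]
  have := h.le_of_ge hind (Finset.subset_insert v S)
  exact hvS (this (Finset.mem_insert_self v S))

lemma min_spans_indep (G : SimpleGraph V) (S : Finset V) (h : Minimal (Spans G) S) :
    Indep G S := by
  classical
  intro u hu
  have hnot : ¬ Spans G (S.erase u) := by
    intro hs
    have := h.le_of_le hs (Finset.erase_subset u S)
    exact Finset.notMem_erase u S (this hu)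
  unfold Spans at hnot
  push Not at hnot
  obtain ⟨x, hx, hxS, hx0⟩ := hnot
  refine ⟨x, hx, ?_, ?_⟩
  · intro hxu
    apply hx0
    apply h.prop x hx
    intro v hv
    by_cases hvu : v = u
    · rw [hvu]; exact hxu
    · exact hxS v (Finset.mem_erase.mpr ⟨hvu, hv⟩)
  · intro v hv hvu
    exact hxS v (Finset.mem_erase.mpr ⟨hvu, hv⟩)

/-- **All four parameters of a forest coincide**, with common value the nullity of the adjacency
matrix. -/
theorem result : ∀ (V : Type) [Fintype V] [DecidableEq V] [Nonempty V] (T : SimpleGraph V),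
    T.IsAcyclic →
    zir T = skewZ T ∧ skewZ T = upperSkewZ T ∧ upperSkewZ T = upperZIR T ∧
      upperZIR T = Module.finrank ℝ (nullSpace T) := by
  classical
  intro V _ _ _ T hT
  set d := Module.finrank ℝ (nullSpace T) with hd
  have hF : IsSkewForcing T = Spans T := by
    funext S; exact propext (forcing_iff T hT S)
  have hI : IsZIr T = Indep T := by
    funext S; exact propext (ir_iff T hT S)
  have hmaxcard : ∀ S, Maximal (IsZIr T) S → S.card = d := by
    intro S hS
    rw [hI] at hS
    exact card_eq T S (max_indep_spans T S hS) hS.prop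
  have hmincard : ∀ S, Minimal (IsSkewForcing T) S → S.card = d := by
    intro S hS
    rw [hF] at hS
    exact card_eq T S hS.prop (min_spans_indep T S hS)
  have hmaxex : ∃ S, Maximal (IsZIr T) S := by
    have : {S : Finset V | IsZIr T S}.Nonempty := ⟨∅, fun u hu => absurd hu (Finset.notMem_empty _)⟩
    obtain ⟨S, hS⟩ := (Set.toFinite {S : Finset V | IsZIr T S}).exists_maximal this
    exact ⟨S, hS⟩
  have hminex : ∀ S, IsSkewForcing T S → ∃ S', S' ⊆ S ∧ Minimal (IsSkewForcing T) S' := by
    intro S hS
    obtain ⟨S', h1, h2⟩ := (Set.toFinite {S : Finset V | IsSkewForcing T S}).exists_le_minimal hS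
    exact ⟨S', h1, h2⟩
  have huniv : IsSkewForcing T Finset.univ := Relation.ReflTransGen.refl
  obtain ⟨S0, hS0⟩ := hmaxex
  obtain ⟨S1, _, hS1⟩ := hminex _ huniv
  have e1 : {k | ∃ S : Finset V, Maximal (IsZIr T) S ∧ S.card = k} = {d} := by
    ext k
    constructor
    · rintro ⟨S, hS, rfl⟩; exact hmaxcard S hS
    · intro hk; exact ⟨S0, hS0, (hmaxcard S0 hS0).trans hk.symm⟩
  have e2 : {k | ∃ S : Finset V, Minimal (IsSkewForcing T) S ∧ S.card = k} = {d} := by
    ext k
    constructor
    · rintro ⟨S, hS, rfl⟩; exact hmincard S hS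
    · intro hk; exact ⟨S1, hS1, (hmincard S1 hS1).trans hk.symm⟩
  have v1 : zir T = d := by rw [zir, e1]; exact csInf_singleton d
  have v4 : upperZIR T = d := by rw [upperZIR, e1]; exact csSup_singleton d
  have v3 : upperSkewZ T = d := by rw [upperSkewZ, e2]; exact csSup_singleton d
  have v2 : skewZ T = d := by
    apply le_antisymm
    · exact Nat.sInf_le ⟨S1, hS1.prop, hmincard S1 hS1⟩
    · have hne : {k | ∃ S : Finset V, IsSkewForcing T S ∧ S.card = k}.Nonempty :=
        ⟨S1.card, S1, hS1.prop, rfl⟩
      rw [skewZ]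
      refine le_csInf hne ?_
      rintro k ⟨S, hS, rfl⟩
      obtain ⟨S', hle, hmin⟩ := hminex S hS
      rw [← hmincard S' hmin]
      exact Finset.card_le_card hle
  exact ⟨v1.trans v2.symm, v2.trans v3.symm, v3.trans v4.symm, v4⟩

end Pool.Agent.Results.MP_aa1485_co.ForestNullity
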